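import Pool.Agent.N816.LR.Defs

/-!
# `F(L) ⋊ Q`, with `Q` finite permuting the basis, has property (LR)

Equivariant version of Marshall Hall's completion.
-/

set_option autoImplicit false

namespace Pool.Agent.N833.LRV

open Pool.Agent.N816.LR

section gen

variable {R : Type} [Group R] (V : Set R)

/-- `a` or its inverse -/
def st (a : R) (i : Bool) : R := bif i then a⁻¹ else a

open Classical in
/-- the completed partial translation -/
noncomputable def f (a : R) (p : R × Bool) : R × Bool :=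
  if p.1 ∈ V then (if st a p.2 * p.1 ∈ V then (st a p.2 * p.1, p.2) else (p.1, !p.2)) else p

lemma f_inv (a : R) (p : R × Bool) : f V a⁻¹ (f V a p) = p := by
  obtain ⟨v, i⟩ := p
  unfold f
  by_cases hv : v ∈ V
  · by_cases h : st a i * v ∈ V
    · have : st a⁻¹ i * (st a i * v) = v := by cases i <;> simp [st]
      simp [hv, h, this]
    · have h2 : st a⁻¹ (!i) = st a i := by cases i <;> simp [st]
      simp [hv, h, h2]
  · simp [hv]

/-- the completed partial translation as a permutation -/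
noncomputable def sg (a : R) : Equiv.Perm (R × Bool) where
  toFun := f V a
  invFun := f V a⁻¹
  left_inv := f_inv V a
  right_inv := fun p => by
    have := f_inv V a⁻¹ p
    rwa [inv_inv] at this

lemma sg_apply (a : R) (p : R × Bool) : sg V a p = f V a p := rfl

lemma sg_inv_apply (a : R) (p : R × Bool) : (sg V a)⁻¹ p = f V a⁻¹ p := rfl

/-- left translation -/
def lm : R →* Equiv.Perm (R × Bool) where
  toFun c := Equiv.prodCongr (Equiv.mulLeft c) (Equiv.refl Bool)
  map_one' := by ext p <;> simp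
  map_mul' a b := by ext p <;> simp [mul_assoc]

lemma lm_apply (c : R) (p : R × Bool) : lm c p = (c * p.1, p.2) := rfl

lemma f_pos (a : R) (v : R) (hv : v ∈ V) (ha : a * v ∈ V) : f V a (v, false) = (a * v, false) := by
  unfold f
  simp [hv, st, ha]

lemma f_conj (c a : R) (hc : ∀ v, c * v ∈ V ↔ v ∈ V) (p : R × Bool) :
    f V (c * a * c⁻¹) (lm c p) = lm c (f V a p) := by
  obtain ⟨v, i⟩ := p
  have h1 : st (c * a * c⁻¹) i * (c * v) = c * (st a i * v) := by
    cases i <;> simp [st, mul_assoc]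
  change f V (c * a * c⁻¹) (c * v, i) = (c * (f V a (v, i)).1, (f V a (v, i)).2)
  unfold f
  simp only [h1]
  by_cases hv : v ∈ V
  · by_cases h : st a i * v ∈ V
    · have h' : c * (st a i * v) ∈ V := (hc _).mpr h
      have hv' : c * v ∈ V := (hc _).mpr hv
      have h'' : st (c * a * c⁻¹) i * (c * v) ∈ V := by rw [h1]; exact h'
      simp [hv, h, h'', hv']
    · have h' : c * (st a i * v) ∉ V := fun h2 => h ((hc _).mp h2)
      have hv' : c * v ∈ V := (hc _).mpr hv
      have h'' : st (c * a * c⁻¹) i * (c * v) ∉ V := by rw [h1]; exact h'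
      simp [hv, h, h'', hv']
  · have hv' : c * v ∉ V := fun h2 => hv ((hc _).mp h2)
    simp [hv, hv']

/-- the permutations which preserve `V × Bool` and commute with the right translations by
elements of `H` -/
def good (H : Subgroup R) : Subgroup (Equiv.Perm (R × Bool)) where
  carrier := {σ | (∀ p : R × Bool, (σ p).1 ∈ V ↔ p.1 ∈ V) ∧
    ∀ p : R × Bool, ∀ h ∈ H, σ (p.1 * h, p.2) = ((σ p).1 * h, (σ p).2)}
  mul_mem' := by
    rintro a b ⟨ha1, ha2⟩ ⟨hb1, hb2⟩
    refine ⟨fun p => ?_, fun p h hh => ?_⟩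
    · rw [Equiv.Perm.mul_apply, ha1, hb1]
    · rw [Equiv.Perm.mul_apply, Equiv.Perm.mul_apply, hb2 p h hh, ha2 _ h hh]
  one_mem' := ⟨fun p => Iff.rfl, fun p h hh => rfl⟩
  inv_mem' := by
    rintro a ⟨ha1, ha2⟩
    refine ⟨fun p => ?_, fun p h hh => ?_⟩
    · have := ha1 (a⁻¹ p)
      have e : a (a⁻¹ p) = p := a.apply_symm_apply p
      rw [e] at this
      exact this.symm
    · have e : a (a⁻¹ p) = p := a.apply_symm_apply p
      rw [Equiv.Perm.inv_eq_iff_eq, ha2 _ h hh, e]

lemma sg_good (H : Subgroup R) (hV : ∀ v, ∀ h ∈ H, (v * h ∈ V ↔ v ∈ V)) (a : R) :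
    sg V a ∈ good V H := by
  refine ⟨fun p => ?_, fun p h hh => ?_⟩
  · obtain ⟨v, i⟩ := p
    rw [sg_apply]
    unfold f
    by_cases hv : v ∈ V
    · by_cases h : st a i * v ∈ V
      · simp [hv, h]
      · simp [hv, h]
    · simp [hv]
  · obtain ⟨v, i⟩ := p
    rw [sg_apply, sg_apply]
    unfold f
    by_cases hv : v ∈ V
    · have hv' : v * h ∈ V := (hV _ _ hh).mpr hv
      by_cases h2 : st a i * v ∈ V
      · have h2' : st a i * (v * h) ∈ V := by rw [← mul_assoc]; exact (hV _ _ hh).mpr h2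
        simp [hv, h2, hv', h2', mul_assoc]
      · have h2' : st a i * (v * h) ∉ V := by
          rw [← mul_assoc]; exact fun h3 => h2 ((hV _ _ hh).mp h3)
        simp [hv, h2, hv', h2']
    · have hv' : v * h ∉ V := fun h3 => hv ((hV _ _ hh).mp h3)
      simp [hv, hv']

lemma lm_good (H : Subgroup R) (c : R) (hc : ∀ v, c * v ∈ V ↔ v ∈ V) :
    lm c ∈ good V H := by
  refine ⟨fun p => ?_, fun p h hh => ?_⟩
  · rw [lm_apply]; exact hc _
  · simp [lm_apply, mul_assoc]

/-- finite index from a colouring by a finite set -/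
lemma finiteIndex_of_colour {S : Type} [Finite S] (K : Subgroup R) (c : R → S)
    (hc : ∀ r s : R, c r = c s → r⁻¹ * s ∈ K) : K.FiniteIndex := by
  have : Finite (R ⧸ K) := by
    refine Finite.of_injective (fun x : R ⧸ K => c (Quotient.out x)) fun x y hxy => ?_
    have h := hc _ _ hxy
    rw [← QuotientGroup.eq, QuotientGroup.out_eq', QuotientGroup.out_eq'] at h
    exact h
  exact Subgroup.finiteIndex_of_finite_quotient

/-- **The abstract completion.** -/
lemma vr_of_action (H : Subgroup R) (T : Set R) (hT : T.Finite)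
    (hVT : ∀ v ∈ V, ∃ t ∈ T, ∃ h ∈ H, v = t * h) (h1 : (1 : R) ∈ V)
    (θ : R →* Equiv.Perm (R × Bool)) (hθ : ∀ r, θ r ∈ good V H)
    (S : Set R) (hS : Subgroup.closure S = H) (hpath : ∀ s ∈ S, θ s (1, false) = (s, false)) :
    IsVR H := by
  have hH : ∀ h ∈ H, θ h (1, false) = (h, false) := by
    intro h hh
    rw [← hS] at hh
    induction hh using Subgroup.closure_induction with
    | mem x hx => exact hpath x hx
    | one => rw [map_one]; rfl
    | mul x y hx hy ihx ihy =>
      rw [map_mul, Equiv.Perm.mul_apply, ihy]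
      have := (hθ x).2 (1, false) y (by rw [← hS]; exact hy)
      rw [one_mul] at this
      rw [this, ihx]
    | inv x hx ihx =>
      rw [map_inv, Equiv.Perm.inv_eq_iff_eq]
      have := (hθ x).2 (1, false) x⁻¹ (by rw [← hS]; exact inv_mem hx)
      rw [one_mul] at this
      rw [this, ihx, mul_inv_cancel]
  let K : Subgroup R :=
    { carrier := {r | ∃ h ∈ H, θ r (1, false) = (h, false)}
      mul_mem' := by
        rintro a b ⟨x, hx, hax⟩ ⟨y, hy, hby⟩
        refine ⟨x * y, mul_mem hx hy, ?_⟩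
        rw [map_mul, Equiv.Perm.mul_apply, hby]
        have := (hθ a).2 (1, false) y hy
        rw [one_mul] at this
        rw [this, hax]
      one_mem' := ⟨1, one_mem _, by rw [map_one]; rfl⟩
      inv_mem' := by
        rintro a ⟨x, hx, hax⟩
        refine ⟨x⁻¹, inv_mem hx, ?_⟩
        rw [map_inv, Equiv.Perm.inv_eq_iff_eq]
        have := (hθ a).2 (1, false) x⁻¹ (inv_mem hx)
        rw [one_mul] at this
        rw [this, hax, mul_inv_cancel] }
  have hKmem : ∀ r, r ∈ K ↔ ∃ h ∈ H, θ r (1, false) = (h, false) := fun r => Iff.rfl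
  refine ⟨K, ?_, ?_, ?_⟩
  · -- finite index
    have hin : ∀ r : R, (θ r (1, false)).1 ∈ V := fun r => ((hθ r).1 (1, false)).mpr h1
    have hch : ∀ r : R, ∃ t ∈ T, ∃ h ∈ H, (θ r (1, false)).1 = t * h := fun r => hVT _ (hin r)
    choose c hcT d hdH hcd using hch
    have := hT.to_subtype
    refine finiteIndex_of_colour K (fun r => ((⟨c r, hcT r⟩, (θ r (1, false)).2) : T × Bool)) ?_
    intro r s hrs
    simp only [Prod.mk.injEq, Subtype.mk.injEq] at hrs
    rw [hKmem]
    refine ⟨(d r)⁻¹ * d s, mul_mem (inv_mem (hdH r)) (hdH s), ?_⟩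
    rw [map_mul, map_inv, Equiv.Perm.mul_apply, Equiv.Perm.inv_eq_iff_eq]
    have h2 := (hθ r).2 (1, false) ((d r)⁻¹ * d s) (mul_mem (inv_mem (hdH r)) (hdH s))
    rw [one_mul] at h2
    rw [h2]
    refine Prod.ext ?_ hrs.2.symm
    simp only
    rw [hcd s, hcd r, hrs.1]
    group
  · intro h hh
    exact ⟨h, hh, hH h hh⟩
  · refine ⟨{ toFun := fun k => (θ k (1, false)).1, map_one' := ?_, map_mul' := ?_ }, ?_, ?_⟩
    · simp
    · rintro ⟨a, x, hx, hax⟩ ⟨b, y, hy, hby⟩
      simp only [Subgroup.coe_mul]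
      rw [map_mul, Equiv.Perm.mul_apply, hby, hax]
      have := (hθ a).2 (1, false) y hy
      rw [one_mul] at this
      rw [this, hax]
    · rintro ⟨a, x, hx, hax⟩
      simp only [MonoidHom.coe_mk, OneHom.coe_mk]
      rw [hax]; exact hx
    · intro h hk hh
      simp only [MonoidHom.coe_mk, OneHom.coe_mk]
      rw [hH h hh]

end gen

theorem lr_perm {Q L : Type} [Group Q] [Finite Q] [MulAction Q L]
    (H : Subgroup (FreeGroup L ⋊[pa Q L] Q)) (hH : H.FG) : IsVR H := by
  classical
  obtain ⟨S, hS⟩ := hH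
  -- partial products
  let P : Set (FreeGroup L ⋊[pa Q L] Q) := {1} ∪ ⋃ s ∈ (S : Set (FreeGroup L ⋊[pa Q L] Q)),
    (fun w : List (L × Bool) =>
      (SemidirectProduct.inl (FreeGroup.mk w) * SemidirectProduct.inr s.right :
        FreeGroup L ⋊[pa Q L] Q)) '' {w | w ∈ s.left.toWord.tails}
  have hP : P.Finite := by
    refine (Set.finite_singleton _).union (S.finite_toSet.biUnion fun s _ => ?_)
    exact (List.finite_toSet _).image _
  let T : Set (FreeGroup L ⋊[pa Q L] Q) := (fun x : Q × (FreeGroup L ⋊[pa Q L] Q) =>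
    SemidirectProduct.inr x.1 * x.2) '' (Set.univ ×ˢ P)
  have hT : T.Finite := (Set.finite_univ.prod hP).image _
  let V : Set (FreeGroup L ⋊[pa Q L] Q) := {v | ∃ t ∈ T, ∃ h ∈ H, v = t * h}
  have hV1 : (1 : FreeGroup L ⋊[pa Q L] Q) ∈ V := by
    refine ⟨1, ⟨(1, 1), ⟨Set.mem_univ _, Or.inl rfl⟩, by simp⟩, 1, one_mem _, by simp⟩
  have hPV : ∀ p ∈ P, p ∈ V := by
    intro p hp
    exact ⟨p, ⟨(1, p), ⟨Set.mem_univ _, hp⟩, by simp⟩, 1, one_mem _, by simp⟩
  have hVH : ∀ v, ∀ h ∈ H, (v * h ∈ V ↔ v ∈ V) := by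
    have h1 : ∀ v, ∀ h ∈ H, v ∈ V → v * h ∈ V := by
      rintro v h hh ⟨t, ht, h', hh', rfl⟩
      exact ⟨t, ht, h' * h, mul_mem hh' hh, by rw [mul_assoc]⟩
    intro v h hh
    refine ⟨fun h2 => ?_, h1 v h hh⟩
    have := h1 _ h⁻¹ (inv_mem hh) h2
    rwa [mul_inv_cancel_right] at this
  have hVQ : ∀ q : Q, ∀ v, (SemidirectProduct.inr q * v ∈ V ↔ v ∈ V) := by
    have h1 : ∀ q : Q, ∀ v, v ∈ V → SemidirectProduct.inr q * v ∈ V := by
      rintro q v ⟨t, ⟨⟨q', p⟩, ⟨-, hp⟩, rfl⟩, h', hh', rfl⟩
      refine ⟨SemidirectProduct.inr (q * q') * p, ⟨(q * q', p), ⟨Set.mem_univ _, hp⟩, rfl⟩,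
        h', hh', ?_⟩
      rw [map_mul]
      simp only [mul_assoc]
    intro q v
    refine ⟨fun h2 => ?_, h1 q v⟩
    have := h1 q⁻¹ _ h2
    rwa [← mul_assoc, ← map_mul, inv_mul_cancel, map_one, one_mul] at this
  let θ₁ : FreeGroup L →* Equiv.Perm ((FreeGroup L ⋊[pa Q L] Q) × Bool) :=
    FreeGroup.lift fun l => sg V (SemidirectProduct.inl (FreeGroup.of l))
  let θ₂ : Q →* Equiv.Perm ((FreeGroup L ⋊[pa Q L] Q) × Bool) :=
    lm.comp SemidirectProduct.inr
  have hcomp : ∀ g : Q, θ₁.comp ((pa Q L) g).toMonoidHom =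
      (MulAut.conj (θ₂ g)).toMonoidHom.comp θ₁ := by
    intro g
    ext1 l
    simp only [MonoidHom.comp_apply, MulEquiv.coe_toMonoidHom, pa_of]
    change θ₁ (FreeGroup.of (g • l)) = θ₂ g * θ₁ (FreeGroup.of l) * (θ₂ g)⁻¹
    rw [eq_mul_inv_iff_mul_eq]
    simp only [θ₁, FreeGroup.lift_apply_of]
    refine Equiv.ext fun p => ?_
    rw [Equiv.Perm.mul_apply, Equiv.Perm.mul_apply, sg_apply, sg_apply]
    have h1 : (SemidirectProduct.inl (FreeGroup.of (g • l)) : FreeGroup L ⋊[pa Q L] Q) =
        SemidirectProduct.inr g * SemidirectProduct.inl (FreeGroup.of l) *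
          (SemidirectProduct.inr g)⁻¹ := by
      rw [← pa_of, SemidirectProduct.inl_aut, map_inv]
    rw [h1]
    exact f_conj V _ _ (hVQ g) p
  let θ := SemidirectProduct.lift θ₁ θ₂ hcomp
  have hθ₁ : ∀ x, θ₁ x ∈ good V H := by
    intro x
    induction x using FreeGroup.induction_on with
    | C1 => rw [map_one]; exact one_mem _
    | of a =>
      simp only [θ₁, FreeGroup.lift_apply_of]
      exact sg_good V H hVH _
    | inv_of a _ =>
      rw [map_inv]
      simp only [θ₁, FreeGroup.lift_apply_of]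
      exact inv_mem (sg_good V H hVH _)
    | mul x y hx hy => rw [map_mul]; exact mul_mem hx hy
  have hθ : ∀ r, θ r ∈ good V H := by
    intro r
    rw [← SemidirectProduct.inl_left_mul_inr_right r, map_mul]
    refine mul_mem ?_ ?_
    · rw [SemidirectProduct.lift_inl]; exact hθ₁ _
    · rw [SemidirectProduct.lift_inr]
      exact lm_good V H _ (hVQ _)
  refine vr_of_action V H T hT (fun v hv => hv) hV1 θ hθ S hS ?_
  intro s hs
  have key : ∀ w : List (L × Bool), w <:+ s.left.toWord →
      θ (SemidirectProduct.inl (FreeGroup.mk w) * SemidirectProduct.inr s.right) (1, false) =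
        (SemidirectProduct.inl (FreeGroup.mk w) * SemidirectProduct.inr s.right, false) := by
    intro w
    induction w with
    | nil =>
      intro _
      have : (FreeGroup.mk [] : FreeGroup L) = 1 := rfl
      rw [this, map_one, one_mul, SemidirectProduct.lift_inr]
      change lm _ _ = _
      rw [lm_apply, mul_one]
    | cons a w ih =>
      intro hw
      have hw' : w <:+ s.left.toWord := (List.suffix_cons a w).trans hw
      have hin : ∀ w : List (L × Bool), w <:+ s.left.toWord →
          (SemidirectProduct.inl (FreeGroup.mk w) * SemidirectProduct.inr s.right :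
            FreeGroup L ⋊[pa Q L] Q) ∈ V := by
        intro w hw
        refine hPV _ (Or.inr ?_)
        rw [Set.mem_iUnion₂]
        exact ⟨s, hs, w, (List.mem_tails _ _).mpr hw, rfl⟩
      obtain ⟨l, b⟩ := a
      have e : (FreeGroup.mk ((l, b) :: w) : FreeGroup L) =
          (bif b then FreeGroup.of l else (FreeGroup.of l)⁻¹) * FreeGroup.mk w := by
        cases b
        · simp [FreeGroup.of, FreeGroup.invRev]
        · simp [FreeGroup.of]
      have h1 := hin w hw'
      have h2 := hin _ hw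
      rw [e] at h2
      rw [e, map_mul SemidirectProduct.inl, mul_assoc, map_mul θ, Equiv.Perm.mul_apply, ih hw',
        SemidirectProduct.lift_inl]
      rw [map_mul SemidirectProduct.inl, mul_assoc] at h2
      cases b
      · simp only [cond_false] at h2 ⊢
        rw [map_inv]
        simp only [θ₁, FreeGroup.lift_apply_of]
        rw [sg_inv_apply, ← map_inv]
        exact f_pos V _ _ h1 h2
      · simp only [cond_true] at h2 ⊢
        simp only [θ₁, FreeGroup.lift_apply_of]
        rw [sg_apply]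
        exact f_pos V _ _ h1 h2
  have h := key s.left.toWord (List.suffix_refl _)
  rw [FreeGroup.mk_toWord, SemidirectProduct.inl_left_mul_inr_right] at h
  exact h

end Pool.Agent.N833.LRV
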